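import Pool.Agent.R659.PSMain

namespace Pool.Agent.Results.MP_0bd9b3_al.MatrixPowerSums

open Pool.Agent.R659

universe u

/-- `S_k^d(R)`: the sum of the `k`-th powers of all `d × d` matrices over the finite ring `R`. -/
def powerSum (R : Type u) [NonUnitalRing R] [Fintype R] (d k : ℕ) : Matrix (Fin d) (Fin d) R :=
  ∑ A : Matrix (Fin d) (Fin d) R, spow A k

/-- conditions 1-3 hold for `R`, `d`, `k`, the element of order two being `e`. -/
def Exceptional (R : Type u) [NonUnitalRing R] [Fintype R] (d k : ℕ) (e : R) : Prop :=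
  d = 2 ∧ (Fintype.card R % 4 = 2 ∧ 1 < k ∧ (k % 6 = 5 ∨ k % 6 = 0 ∨ k % 6 = 1)) ∧
    (e ≠ 0 ∧ 2 • e = 0 ∧ e * e = e)

section aux

variable (R : Type u) [NonUnitalRing R] [Fintype R]

/-- uniqueness of the element of order two -/
lemma two_torsion (h : Fintype.card R % 4 = 2) : ∃ e : R, e ≠ 0 ∧ 2 • e = 0 ∧
    ∀ x : R, 2 • x = 0 → x = 0 ∨ x = e := by
  classical
  have : Fact (Nat.Prime 2) := ⟨Nat.prime_two⟩
  obtain ⟨e, he⟩ := exists_prime_addOrderOf_dvd_card (G := R) 2 (by omega)
  have he0 : e ≠ 0 := by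
    rintro rfl
    simp at he
  have he2 : 2 • e = 0 := by rw [← he]; exact addOrderOf_nsmul_eq_zero e
  refine ⟨e, he0, he2, fun x hx => ?_⟩
  by_contra hcon
  push Not at hcon
  obtain ⟨hx0, hxe⟩ := hcon
  have h1 : Nat.card (AddSubgroup.zmultiples e) = 2 := by rw [Nat.card_zmultiples, he]
  have h2 : Nat.card R = Nat.card (R ⧸ AddSubgroup.zmultiples e) * 2 := by
    rw [← h1]; exact AddSubgroup.card_eq_card_quotient_mul_card_addSubgroup _
  rw [Nat.card_eq_fintype_card] at h2
  have h3 : addOrderOf (x : R ⧸ AddSubgroup.zmultiples e) ∣ 2 := by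
    rw [addOrderOf_dvd_iff_nsmul_eq_zero]
    have : (2 • (x : R ⧸ AddSubgroup.zmultiples e)) = ((2 • x : R) : R ⧸ AddSubgroup.zmultiples e) := rfl
    rw [this, hx]; rfl
  have h4 : addOrderOf (x : R ⧸ AddSubgroup.zmultiples e) ∣
      Nat.card (R ⧸ AddSubgroup.zmultiples e) := addOrderOf_dvd_natCard _
  have h5 : addOrderOf (x : R ⧸ AddSubgroup.zmultiples e) = 1 := by
    rcases (Nat.dvd_prime Nat.prime_two).mp h3 with h | h
    · exact h
    · rw [h] at h4
      omega
  rw [AddMonoid.addOrderOf_eq_one_iff, QuotientAddGroup.eq_zero_iff] at h5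
  obtain ⟨j, hj⟩ := AddSubgroup.mem_zmultiples_iff.mp h5
  rcases Int.even_or_odd j with ⟨t, ht⟩ | ⟨t, ht⟩
  · apply hx0
    have e2 : (2 : ℤ) • e = 0 := by
      have := he2
      rw [← natCast_zsmul] at this
      exact_mod_cast this
    rw [← hj, ht, ← two_mul, mul_comm, mul_smul, e2, smul_zero]
  · apply hxe
    have e2 : (2 : ℤ) • e = 0 := by
      have := he2
      rw [← natCast_zsmul] at this
      exact_mod_cast this
    rw [← hj, ht, add_smul, mul_comm, mul_smul, e2, smul_zero, one_smul, zero_add]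

end aux

lemma per (B : Matrix (Fin 2) (Fin 2) (ZMod 2)) (q r : ℕ) : B ^ (2 + r + 6 * q) = B ^ (2 + r) := by
  have h : ∀ B : Matrix (Fin 2) (Fin 2) (ZMod 2), B ^ 8 = B ^ 2 := by decide +kernel
  induction q with
  | zero => simp
  | succ q ih =>
    have e1 : 2 + r + 6 * (q + 1) = 8 + (r + 6 * q) := by ring
    rw [e1, pow_add, h, ← pow_add, ← ih]
    congr 1
    ring

lemma small_sum (k : ℕ) (hk : 2 ≤ k) :
    ∑ B : Matrix (Fin 2) (Fin 2) (ZMod 2), spow B k =
      if (k % 6 = 5 ∨ k % 6 = 0 ∨ k % 6 = 1) then 1 else 0 := by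
  have h2 : ∑ B : Matrix (Fin 2) (Fin 2) (ZMod 2), B ^ 2 = 0 := by decide +kernel
  have h3 : ∑ B : Matrix (Fin 2) (Fin 2) (ZMod 2), B ^ 3 = 0 := by decide +kernel
  have h4 : ∑ B : Matrix (Fin 2) (Fin 2) (ZMod 2), B ^ 4 = 0 := by decide +kernel
  have h5 : ∑ B : Matrix (Fin 2) (Fin 2) (ZMod 2), B ^ 5 = 1 := by decide +kernel
  have h6 : ∑ B : Matrix (Fin 2) (Fin 2) (ZMod 2), B ^ 6 = 1 := by decide +kernel
  have h7 : ∑ B : Matrix (Fin 2) (Fin 2) (ZMod 2), B ^ 7 = 1 := by decide +kernel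
  have e1 : ∀ B : Matrix (Fin 2) (Fin 2) (ZMod 2), spow B k = B ^ k :=
    fun B => spow_eq_pow B k (by omega)
  simp only [e1]
  obtain ⟨q, r, hr, rfl⟩ : ∃ q r, r < 6 ∧ k = 2 + r + 6 * q :=
    ⟨(k - 2) / 6, (k - 2) % 6, by omega, by omega⟩
  simp only [per]
  interval_cases r
  · rw [if_neg (by omega)]; exact h2
  · rw [if_neg (by omega)]; exact h3
  · rw [if_neg (by omega)]; exact h4
  · rw [if_pos (by omega)]; exact h5
  · rw [if_pos (by omega)]; exact h6
  · rw [if_pos (by omega)]; exact h7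

section two

variable (R : Type u) [NonUnitalRing R] [Fintype R]

/-- `x ↦ m x` where `card R = 2 m`, `m` odd, is a homomorphism. -/
lemma msmul (m : ℕ) (hm : Fintype.card R = 2 * m) (hodd : m % 2 = 1) (x y : R) :
    (m • x) * (m • y) = m • (x * y) := by
  obtain ⟨t, ht⟩ : ∃ t, m = 2 * t + 1 := ⟨m / 2, by omega⟩
  have h1 : Fintype.card R • (x * y) = 0 := card_nsmul_eq_zero
  rw [smul_mul_smul_comm]
  have : m * m = t * Fintype.card R + m := by rw [hm, ht]; ring
  rw [this, add_smul, mul_smul, h1, smul_zero, zero_add]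

theorem case_idem (k : ℕ) (hk : 2 ≤ k) (h : Fintype.card R % 4 = 2) (e : R) (he0 : e ≠ 0)
    (he2 : 2 • e = 0) (hee : e * e = e) :
    powerSum R 2 k = if (k % 6 = 5 ∨ k % 6 = 0 ∨ k % 6 = 1) then Matrix.diagonal (fun _ => e)
      else 0 := by
  classical
  obtain ⟨m, hm⟩ : ∃ m, Fintype.card R = 2 * m := ⟨Fintype.card R / 2, by omega⟩
  have hodd : m % 2 = 1 := by omega
  obtain ⟨e', he'0, he'2, huniq'⟩ := two_torsion R h
  have hee' : e = e' := by
    rcases huniq' e he2 with h1 | h1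
    · exact absurd h1 he0
    · exact h1
  subst hee'
  have hm2 : ∀ x : R, m • x = 0 ∨ m • x = e := by
    intro x
    apply huniq'
    rw [smul_smul, ← hm]
    exact card_nsmul_eq_zero
  have hme : m • e = e := by
    obtain ⟨t, ht⟩ : ∃ t, m = t * 2 + 1 := ⟨m / 2, by omega⟩
    rw [ht, add_smul, mul_smul, he2, smul_zero, zero_add, one_smul]
  let hh : ZMod 2 → R := fun a => if a = 0 then 0 else e
  have hh0 : hh 0 = 0 := by simp [hh]
  have hh1 : hh 1 = e := by simp [hh]
  have hinj : Function.Injective hh := by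
    intro a b hab
    fin_cases a <;> fin_cases b
    · rfl
    · exact absurd hab.symm (by change hh 1 ≠ hh 0; rw [hh0, hh1]; exact he0)
    · exact absurd hab (by change hh 1 ≠ hh 0; rw [hh0, hh1]; exact he0)
    · rfl
  have hadd : ∀ a b, hh (a + b) = hh a + hh b := by
    intro a b
    fin_cases a <;> fin_cases b
    · change hh 0 = hh 0 + hh 0; rw [hh0, add_zero]
    · change hh 1 = hh 0 + hh 1; rw [hh0, zero_add]
    · change hh 1 = hh 1 + hh 0; rw [hh0, add_zero]
    · change hh 0 = hh 1 + hh 1; rw [hh0, hh1, ← two_nsmul, he2]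
  have hmul : ∀ a b, hh (a * b) = hh a * hh b := by
    intro a b
    fin_cases a <;> fin_cases b
    · change hh 0 = hh 0 * hh 0; rw [hh0, mul_zero]
    · change hh 0 = hh 0 * hh 1; rw [hh0, zero_mul]
    · change hh 0 = hh 1 * hh 0; rw [hh0, mul_zero]
    · change hh 1 = hh 1 * hh 1; rw [hh1, hee]
  let H : ZMod 2 →ₙ+* R :=
    { toFun := hh
      map_mul' := hmul
      map_zero' := hh0
      map_add' := hadd }
  let χ' : R → ZMod 2 := fun x => if m • x = 0 then 0 else 1
  have hχ : ∀ x, hh (χ' x) = m • x := by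
    intro x
    by_cases hx : m • x = 0
    · simp only [χ', if_pos hx]; rw [hh0, hx]
    · simp only [χ', if_neg hx]
      rw [hh1]
      rcases hm2 x with h1 | h1
      · exact absurd h1 hx
      · exact h1.symm
  let χ : R →ₙ+* ZMod 2 :=
    { toFun := χ'
      map_mul' := fun x y => by
        apply hinj
        rw [hmul, hχ, hχ, hχ, msmul R m hm hodd]
      map_zero' := by
        apply hinj
        rw [hχ, hh0, smul_zero]
      map_add' := fun x y => by
        apply hinj
        rw [hadd, hχ, hχ, hχ, smul_add] }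
  have hχs : Function.Surjective χ := by
    intro a
    fin_cases a
    · exact ⟨0, map_zero χ⟩
    · refine ⟨e, hinj ?_⟩
      change hh (χ' e) = hh 1
      rw [hχ, hh1, hme]
  -- the sum is fixed by multiplication by `m`
  have hgood := good_all (ι := Fin 2) (by simp) k (by omega) (Fintype.card R) R rfl
  have hmS : m • powerSum R 2 k = powerSum R 2 k := by
    obtain ⟨t, ht⟩ : ∃ t, m = t * 2 + 1 := ⟨m / 2, by omega⟩
    have h1 : 2 • powerSum R 2 k = 0 := hgood.1
    rw [ht, add_smul, mul_smul, h1, smul_zero, zero_add, one_smul]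
  have hS1 : powerSum R 2 k = mmap (Fin 2) H (mmap (Fin 2) χ (powerSum R 2 k)) := by
    rw [← hmS]
    conv_rhs => rw [hmS]
    refine Matrix.ext fun i j => ?_
    rw [mmap_apply, mmap_apply, Matrix.smul_apply]
    exact (hχ _).symm
  have hS2 : mmap (Fin 2) χ (powerSum R 2 k) =
      ∑ B : Matrix (Fin 2) (Fin 2) (ZMod 2), spow B k := by
    have h1 := sum_fiber (mmap (Fin 2) χ : Matrix (Fin 2) (Fin 2) R →+
      Matrix (Fin 2) (Fin 2) (ZMod 2)) (mmap_surj χ hχs) (fun B => spow B k)
    have h2 : mmap (Fin 2) χ (powerSum R 2 k) =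
        ∑ A : Matrix (Fin 2) (Fin 2) R, spow (mmap (Fin 2) χ A) k := by
      rw [powerSum, map_sum]
      exact Finset.sum_congr rfl fun A _ => map_spow _ A k
    rw [h2]
    refine Eq.trans h1 ?_
    rw [card_ker_mmap]
    have hcard := card_fiber (χ : R →+ ZMod 2) hχs
    rw [ZMod.card] at hcard
    set c := Nat.card (χ : R →+ ZMod 2).ker with hc
    have hcodd : c % 2 = 1 := by omega
    have hc4 : c ^ (Fintype.card (Fin 2) * Fintype.card (Fin 2)) % 2 = 1 := by
      rw [Nat.pow_mod, hcodd, one_pow]; norm_num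
    obtain ⟨t, ht⟩ : ∃ t, c ^ (Fintype.card (Fin 2) * Fintype.card (Fin 2)) = t * 2 + 1 :=
      ⟨c ^ (Fintype.card (Fin 2) * Fintype.card (Fin 2)) / 2, by omega⟩
    rw [ht, add_smul, mul_smul, one_smul]
    have h5 : ∀ X : Matrix (Fin 2) (Fin 2) (ZMod 2), 2 • X = 0 := by
      intro X
      refine Matrix.ext fun a b => ?_
      rw [Matrix.smul_apply, Matrix.zero_apply]
      have : ∀ z : ZMod 2, 2 • z = 0 := by decide
      exact this _
    rw [h5, smul_zero, zero_add]
  rw [hS1, hS2, small_sum k hk]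
  split_ifs
  · refine Matrix.ext fun i j => ?_
    rw [mmap_apply, Matrix.one_apply, Matrix.diagonal_apply]
    split_ifs
    · exact hh1
    · exact hh0
  · rw [map_zero]

theorem case_nil (k : ℕ) (hk : 1 ≤ k) (h : Fintype.card R % 4 = 2) (e : R) (he0 : e ≠ 0)
    (he2 : 2 • e = 0) (hee : e * e ≠ e) : powerSum R 2 k = 0 := by
  classical
  obtain ⟨m, hm⟩ : ∃ m, Fintype.card R = 2 * m := ⟨Fintype.card R / 2, by omega⟩
  have hodd : m % 2 = 1 := by omega
  obtain ⟨e', he'0, he'2, huniq'⟩ := two_torsion R h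
  have hee' : e = e' := by
    rcases huniq' e he2 with h1 | h1
    · exact absurd h1 he0
    · exact h1
  subst hee'
  have hsq : e * e = 0 := by
    rcases huniq' (e * e) (by rw [← smul_mul_assoc, he2, zero_mul]) with h1 | h1
    · exact h1
    · exact absurd h1 hee
  have hm2 : ∀ x : R, m • x = 0 ∨ m • x = e := by
    intro x
    apply huniq'
    rw [smul_smul, ← hm]
    exact card_nsmul_eq_zero
  rcases Nat.lt_or_ge 1 k with hk1 | hk1
  · have hgood := good_all (ι := Fin 2) (by simp) k (by omega) (Fintype.card R) R rfl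
    have hmS : m • powerSum R 2 k = powerSum R 2 k := by
      obtain ⟨t, ht⟩ : ∃ t, m = t * 2 + 1 := ⟨m / 2, by omega⟩
      have h1 : 2 • powerSum R 2 k = 0 := hgood.1
      rw [ht, add_smul, mul_smul, h1, smul_zero, zero_add, one_smul]
    rw [← hmS, powerSum, Finset.smul_sum]
    refine Finset.sum_eq_zero fun A _ => ?_
    obtain ⟨n, rfl⟩ : ∃ n, k = n + 1 := ⟨k - 1, by omega⟩
    rw [spow_succ A n (by omega)]
    refine Matrix.ext fun i j => ?_
    rw [Matrix.smul_apply, Matrix.mul_apply, Finset.smul_sum, Matrix.zero_apply]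
    refine Finset.sum_eq_zero fun l _ => ?_
    rw [← msmul R m hm hodd]
    rcases hm2 (spow A n i l) with h1 | h1
    · rw [h1, zero_mul]
    · rcases hm2 (A l j) with h2 | h2
      · rw [h2, mul_zero]
      · rw [h1, h2, hsq]
  · have : k = 1 := by omega
    subst this
    exact sum_matrix (by simp)

end two

/-- **MP_0bd9b3_al**, Q1, is true: for every finite ring `R` (not necessarily commutative or
unital), every `d > 1` and every `k ≥ 1`, `S_k^d(R) = 0` unless conditions 1-3 hold, and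
`S_k^2(R) = diag(e, e)` when they do. -/
theorem result (R : Type u) [NonUnitalRing R] [Fintype R] (d : ℕ) (hd : 1 < d) (k : ℕ)
    (hk : 1 ≤ k) :
    (Fintype.card R % 4 = 2 → ∃! e : R, e ≠ 0 ∧ 2 • e = 0) ∧
    ((¬ ∃ e : R, Exceptional R d k e) → powerSum R d k = 0) ∧
    (∀ e : R, Exceptional R d k e → powerSum R d k = Matrix.diagonal (fun _ => e)) := by
  classical
  refine ⟨fun h => ?_, fun hne => ?_, ?_⟩
  · obtain ⟨e, he0, he2, hu⟩ := two_torsion R h
    refine ⟨e, ⟨he0, he2⟩, ?_⟩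
    rintro y ⟨hy0, hy2⟩
    rcases hu y hy2 with h1 | h1
    · exact absurd h1 hy0
    · exact h1
  · have hgood := good_all (ι := Fin d) (by rw [Fintype.card_fin]; omega) k hk (Fintype.card R) R rfl
    rcases hgood.2 with h1 | ⟨h1, h2⟩
    · exact h1
    · rw [Fintype.card_fin] at h1
      subst h1
      obtain ⟨e, he0, he2, hu⟩ := two_torsion R h2
      by_cases hee : e * e = e
      · rcases Nat.lt_or_ge 1 k with hk1 | hk1
        · rw [case_idem R k hk1 h2 e he0 he2 hee, if_neg]
          intro h3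
          exact hne ⟨e, rfl, ⟨h2, hk1, h3⟩, he0, he2, hee⟩
        · have : k = 1 := by omega
          subst this
          exact sum_matrix (by simp)
      · exact case_nil R k hk h2 e he0 he2 hee
  · rintro e ⟨rfl, ⟨h2, hk1, h3⟩, he0, he2, hee⟩
    rw [case_idem R k hk1 h2 e he0 he2 hee, if_pos h3]

end Pool.Agent.Results.MP_0bd9b3_al.MatrixPowerSums
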